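import Pool.Agent.N860.GL.Gold
import Pool.Agent.T2h83.GT.Wf

/-!
# Generic leading parts: one property with an error term (adapted from `N860/GL/Fin`)
-/

set_option autoImplicit false

namespace Pool.Agent.T2h83.GL

open Finset MeasureTheory Filter
open scoped ENNReal Topology
open Pool.Agent.N860.GL (ClassBound Near BadNear Classes random_classes metric_classes)

/-- the conclusion -/
def Concl (F : ℝ → ℕ → ℕ → Prop) (q : ℕ → ℕ) (A : ℕ → Finset ℕ) (y : ℕ → ℕ) : Prop :=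
  ∀ (W T : ℕ) (ε : ℝ), 0 < ε → ∀ᶠ n in atTop, ∀ a ∈ A n, ∀ m : ℕ, Near W T (q n) (q n * y n + a) m → F ε W m

/-- the input -/
structure Input (θ : ℝ) (F : ℝ → ℕ → ℕ → Prop) : Prop where
  form : ∀ ε : ℝ, 0 < ε → ∀ W : ℕ, ClassBound θ (F ε W)
  mono : ∀ ε ε' : ℝ, ε ≤ ε' → ∀ W n : ℕ, F ε W n → F ε' W n

/-- from countably many statements to the conclusion -/
lemma concl_of {θ : ℝ} {F : ℝ → ℕ → ℕ → Prop} (hI : Input θ F) {q : ℕ → ℕ} {A : ℕ → Finset ℕ} {y : ℕ → ℕ}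
    (h1 : ∀ W T k : ℕ, ∀ᶠ n in atTop, ∀ a ∈ A n, ¬ BadNear (F (1 / ((k : ℝ) + 1)) W) W T (q n) (q n * y n + a)) :
    Concl F q A y := by
  intro W T ε hε
  obtain ⟨k, hk⟩ := exists_nat_one_div_lt hε
  filter_upwards [h1 W T k] with n hn a ha m hm
  by_contra hbad
  apply hn a ha
  exact ⟨m, hm, fun hF => hbad (hI.mono _ _ hk.le W m hF)⟩

theorem random_concl {θ : ℝ} {F : ℝ → ℕ → ℕ → Prop} (hI : Input θ F) (hθ0 : 0 < θ) (hθ1 : θ < 1) {κ δ C : ℝ}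
    (hκθ : 1 - θ < κ * θ) (hδ : 0 < δ)
    {q : ℕ → ℕ} {A : ℕ → Finset ℕ} (hA : Classes q A) {Ω : Type}
    [MeasurableSpace Ω] (μ : Measure Ω) (Y : ℕ → Ω → ℕ)
    (hY : ∀ n (y : ℕ), μ {ω | Y n ω = y} ≤ ENNReal.ofReal (C / ((y : ℝ) + 1)))
    (hs : ∑' n : ℕ, μ {ω | (Y n ω : ℝ) < Real.exp ((n : ℝ) ^ δ)} ≠ ∞)
    (hq : ∑' n : ℕ, μ {ω | (Y n ω : ℝ) < (q n : ℝ) ^ κ} ≠ ∞) :
    ∀ᵐ ω ∂μ, Concl F q A (fun n => Y n ω) := by
  have hκ0 : 0 < κ := by
    by_contra h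
    push Not at h
    nlinarith
  have h : ∀ W T k : ℕ, ∀ᵐ ω ∂μ, ∀ᶠ n in atTop, ∀ a ∈ A n,
      ¬ BadNear (F (1 / ((k : ℝ) + 1)) W) W T (q n) (q n * Y n ω + a) := fun W T k =>
    random_classes (hI.form _ (by positivity) W) hθ1 hκθ hκ0 hδ W T hA μ Y hY hs hq
  filter_upwards [ae_all_iff.2 fun W => ae_all_iff.2 fun T => ae_all_iff.2 fun k => h W T k] with ω hω
  exact concl_of hI hω

theorem metric_concl {θ : ℝ} {F : ℝ → ℕ → ℕ → Prop} (hI : Input θ F) (hθ0 : 0 < θ) (hθ1 : θ < 1) {κ δ c I J : ℝ}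
    (hκθ : 1 - θ < κ * θ) (hδ : 0 < δ) (hc : 0 < c)
    {q : ℕ → ℕ} {A : ℕ → Finset ℕ} (hA : Classes q A) (h : ℕ → ℝ → ℝ)
    (hh : ∀ᶠ n : ℕ in atTop, ∀ x ∈ Set.Icc I J, DifferentiableAt ℝ (h n) x ∧ c * |h n x| ≤ |deriv (h n) x| ∧
      Real.exp ((n : ℝ) ^ δ) ≤ h n x ∧ (q n : ℝ) ^ κ ≤ h n x) :
    ∀ᵐ x : ℝ, x ∈ Set.Icc I J → Concl F q A (fun n => ⌊h n x⌋₊) := by
  have hκ0 : 0 < κ := by
    by_contra h
    push Not at h
    nlinarith
  have h : ∀ W T k : ℕ, ∀ᵐ x : ℝ, x ∈ Set.Icc I J → ∀ᶠ n in atTop, ∀ a ∈ A n,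
      ¬ BadNear (F (1 / ((k : ℝ) + 1)) W) W T (q n) (q n * ⌊h n x⌋₊ + a) := fun W T k =>
    metric_classes (hI.form _ (by positivity) W) hθ1 hθ0 hκθ hκ0 hδ hc W T hA h hh
  filter_upwards [ae_all_iff.2 fun W => ae_all_iff.2 fun T => ae_all_iff.2 fun k => h W T k] with x hx hxI
  exact concl_of hI fun W T k => hx W T k hxI

/-- **Digits.** -/
theorem digits_concl {θ : ℝ} {F : ℝ → ℕ → ℕ → Prop} (hI : Input θ F) (hθ0 : 0 < θ) (hθ1 : θ < 1) {b : ℕ} (hb : 2 ≤ b)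
    {t s : ℕ → ℕ} {κ δ : ℝ} (hκθ : 1 - θ < κ * θ) (hδ : 0 < δ) (ht : ∀ᶠ n : ℕ in atTop, (n : ℝ) ^ δ ≤ t n ∧ κ * s n ≤ t n) {A : ℕ → Finset ℕ}
    (hA : Classes (fun n => b ^ s n) A) :
    ∀ᵐ x : ℝ, 0 < x → Concl F (fun n => b ^ s n) A (fun n => ⌊x * b ^ t n⌋₊) := by
  have hκ0 : 0 < κ := by
    by_contra h
    push Not at h
    nlinarith
  obtain ⟨κ', hκ'⟩ : ∃ κ' : ℝ, κ' = (κ + (1 - θ) / θ) / 2 := ⟨_, rfl⟩
  have h1θ : (1 - θ) / θ < κ := by
    rw [div_lt_iff₀ hθ0]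
    exact hκθ
  have h0θ : 0 < (1 - θ) / θ := div_pos (by linarith) hθ0
  have hκ'κ : κ' < κ := by rw [hκ']; linarith
  have hκ'0 : 0 < κ' := by rw [hκ']; linarith
  have hκ'θ : 1 - θ < κ' * θ := by
    rw [← div_lt_iff₀ hθ0, hκ']
    linarith
  have hb2 : (2 : ℝ) ≤ b := by exact_mod_cast hb
  have hb0 : (0 : ℝ) < b := by linarith
  have hM : ∀ M : ℕ, ∀ᵐ x : ℝ, x ∈ Set.Icc (1 / ((M : ℝ) + 1)) ((M : ℝ) + 1) →
      Concl F (fun n => b ^ s n) A (fun n => ⌊x * b ^ t n⌋₊) := by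
    intro M
    have hM0 : (0 : ℝ) < (M : ℝ) + 1 := by positivity
    refine metric_concl hI hθ0 hθ1 (c := 1 / ((M : ℝ) + 1)) hκ'θ (half_pos hδ) (by positivity) hA (fun n x => x * (b : ℝ) ^ t n) ?_
    have htt : Tendsto (fun n : ℕ => (n : ℝ) ^ δ) atTop atTop :=
      (tendsto_rpow_atTop hδ).comp tendsto_natCast_atTop_atTop
    have htt2 : Tendsto (fun n : ℕ => (n : ℝ) ^ (δ / 2)) atTop atTop :=
      (tendsto_rpow_atTop (half_pos hδ)).comp tendsto_natCast_atTop_atTop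
    have hr0 : 0 < 1 - κ' / κ := by
      rw [sub_pos, div_lt_one hκ0]
      exact hκ'κ
    filter_upwards [ht, htt.eventually_ge_atTop (Real.log ((M : ℝ) + 1) / Real.log 2 / (1 - κ' / κ)),
      htt2.eventually_ge_atTop ((1 + Real.log ((M : ℝ) + 1)) / Real.log 2 + 1)] with n hn hn2 hn3 x hx
    obtain ⟨hn1, hns⟩ := hn
    have hl2 : 0 < Real.log 2 := Real.log_pos one_lt_two
    have hlb : Real.log 2 ≤ Real.log b := Real.log_le_log (by norm_num) hb2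
    have hlM : 0 ≤ Real.log ((M : ℝ) + 1) := Real.log_nonneg (by linarith [(Nat.cast_nonneg M : (0 : ℝ) ≤ M)])
    have hx0 : 0 < x := lt_of_lt_of_le (by positivity) hx.1
    have hbt : (0 : ℝ) < (b : ℝ) ^ t n := by positivity
    have hd : HasDerivAt (fun x : ℝ => x * (b : ℝ) ^ t n) ((b : ℝ) ^ t n) x := by
      simpa using (hasDerivAt_id x).mul_const ((b : ℝ) ^ t n)
    have hlx : -Real.log ((M : ℝ) + 1) ≤ Real.log x := by
      rw [← Real.log_inv, inv_eq_one_div]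
      exact Real.log_le_log (by positivity) hx.1
    have htn0 : (0 : ℝ) ≤ t n := Nat.cast_nonneg _
    have hlog : Real.log (x * (b : ℝ) ^ t n) = Real.log x + t n * Real.log b := by
      rw [Real.log_mul hx0.ne' hbt.ne', Real.log_pow]
    refine ⟨hd.differentiableAt, ?_, ?_, ?_⟩
    · rw [hd.deriv, abs_of_pos hbt, abs_of_pos (by positivity)]
      have h1 : x ≤ (M : ℝ) + 1 := hx.2
      rw [one_div, inv_mul_le_iff₀ hM0]
      gcongr
    · rw [← Real.le_log_iff_exp_le (by positivity), hlog]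
      -- `n ^ (δ / 2) ≤ log x + t n log b`
      have h2 : (n : ℝ) ^ δ = (n : ℝ) ^ (δ / 2) * (n : ℝ) ^ (δ / 2) := by
        rw [← Real.rpow_add_of_nonneg (Nat.cast_nonneg _) (half_pos hδ).le (half_pos hδ).le]
        ring_nf
      set v : ℝ := (n : ℝ) ^ (δ / 2) with hv
      have h3 : (1 + Real.log ((M : ℝ) + 1)) + Real.log 2 ≤ v * Real.log 2 := by
        have h4 := mul_le_mul_of_nonneg_right hn3 hl2.le
        rw [add_mul, div_mul_cancel₀ _ hl2.ne', one_mul] at h4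
        exact h4
      have hv1 : 1 ≤ v := by
        by_contra h
        push Not at h
        nlinarith
      have h5 : v * (v * Real.log 2) ≤ t n * Real.log b := by
        calc v * (v * Real.log 2) = v * v * Real.log 2 := by ring
          _ ≤ t n * Real.log b := by
            rw [← h2]
            gcongr
      have h6 : v * (1 + Real.log ((M : ℝ) + 1) + Real.log 2) ≤ v * (v * Real.log 2) := by gcongr
      nlinarith
    · -- `(b ^ s) ^ κ' ≤ x b ^ t`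
      push_cast
      rw [← Real.log_le_log_iff (by positivity) (by positivity), Real.log_rpow (by positivity), Real.log_pow, hlog]
      have h1 : κ' * (s n : ℝ) ≤ κ' / κ * t n := by
        rw [div_mul_eq_mul_div, le_div_iff₀ hκ0]
        nlinarith
      have h2 : Real.log ((M : ℝ) + 1) / Real.log 2 / (1 - κ' / κ) ≤ t n := hn2.trans hn1
      rw [div_le_iff₀ hr0, div_le_iff₀ hl2] at h2
      have h3 : t n * (1 - κ' / κ) * Real.log 2 ≤ t n * (1 - κ' / κ) * Real.log b := by gcongr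
      have h4 : κ' * (s n : ℝ) * Real.log b ≤ κ' / κ * t n * Real.log b := by gcongr
      nlinarith
  filter_upwards [ae_all_iff.2 hM] with x hx hx0
  obtain ⟨M, hM1⟩ := exists_nat_ge (max x (1 / x))
  have h1 : x ∈ Set.Icc (1 / ((M : ℝ) + 1)) ((M : ℝ) + 1) := by
    constructor
    · rw [div_le_iff₀ (by positivity)]
      have h2 : 1 / x ≤ M := (le_max_right _ _).trans hM1
      rw [div_le_iff₀ hx0] at h2
      nlinarith
    · have := (le_max_left _ _).trans hM1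
      linarith
  exact hx M h1

end Pool.Agent.T2h83.GL
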