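import Pool.Agent.T2h83.GL.Fin

/-!
# Goldbach in totient form near all integers with a generic leading sixth of the digits

The integers `k = q y + a`, `0 ≤ a < q`, are considered whose leading part `y` is random, or the integer
part of the value of a function at a generic real number, and whose last part `a` is arbitrary: it runs
through arbitrary prescribed sets `A n` of polynomially many residues modulo arbitrary prescribed moduli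
`q n`.  Let `2 / 3 ≤ θ ≤ 5 / 6` and `F = F (θ / (2 - 2 θ)) ≤ 0.965`.  If `q ≤ y ^ (θ / (1 - θ) - η)`, then almost
surely for all but finitely many `n`, ALL integers `m` at a distance of at most `(log k) ^ W` from such a
`k` (with `gcd (m, q) ≤ (log k) ^ T`) have between `1 - F² - ε` times and `1 + F + ε` times the number of
integral solutions `x` of the system `φ(m - x) + 1 = m - x`, `φ(m + x) + 1 = m + x` predicted by Hardy and
Littlewood, in every window of a length of at least `2 m / (log 2 m) ^ W`.  For `θ = 5 / 6` this needs only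
`q ≤ y ^ (5 - η)`: the leading sixth of the digits and a little more is generic, and all the other digits are
arbitrary.

The proof: the theorem on the exceptional set in all residue classes of all moduli (`T2h83/GT`), a
decomposition into dyadic shells and neighbouring classes, and Borel–Cantelli without independence (`N860/GL`).
-/

set_option autoImplicit false

namespace Pool.Agent.T2h83.GL.GenericLeadingSixth

open Finset MeasureTheory Filter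
open scoped ENNReal Topology
open Pool.Agent.H560R3.GB (sing)
open Pool.Agent.T2h83.GT (WinT FU)

/-- `x` is an integral solution of the system `φ(n - x) + 1 = n - x`, `φ(n + x) + 1 = n + x`. -/
def Solution (n : ℕ) (x : ℤ) : Prop :=
  1 ≤ (n : ℤ) - x ∧ 1 ≤ (n : ℤ) + x ∧ (Nat.totient ((n : ℤ) - x).toNat : ℤ) + 1 = (n : ℤ) - x ∧
    (Nat.totient ((n : ℤ) + x).toNat : ℤ) + 1 = (n : ℤ) + x

open Classical in
/-- the number of solutions `y₁ < x ≤ y₂` -/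
noncomputable def count (n : ℕ) (y₁ y₂ : ℤ) : ℕ := ((Ioc y₁ y₂).filter (fun x => Solution n x)).card

/-- the prediction of Hardy and Littlewood for it -/
noncomputable def predicted (n : ℕ) (y₁ y₂ : ℤ) : ℝ := sing (2 * n) * ((y₂ : ℝ) - y₁) / Real.log (2 * n) ^ 2

/-- the function `F(u) = log u + ∫_1^(u/2) log ((u - s) / s) ds / s` -/
noncomputable def F (u : ℝ) : ℝ := Real.log u + ∫ s in (1 : ℝ)..max 1 (u / 2), Real.log ((u - s) / s) / s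

/-- `n < 2`, or the number of solutions in every interval `(y₁, y₂] ⊆ [-n, n]` of length at least
`2 n / (log 2 n) ^ W` is between `1 - F² - ε` times and `1 + F + ε` times the prediction, `F = F (θ / (2 - 2 θ))`. -/
def Bounds (θ ε : ℝ) (W n : ℕ) : Prop :=
  2 ≤ n → ∀ y₁ y₂ : ℤ, -(n : ℤ) ≤ y₁ → y₁ < y₂ → y₂ ≤ n → (2 * n : ℝ) / Real.log (2 * n) ^ W ≤ (y₂ : ℝ) - y₁ →
    (1 - F (θ / (2 - 2 * θ)) ^ 2 - ε) * predicted n y₁ y₂ ≤ (count n y₁ y₂ : ℝ) ∧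
    (count n y₁ y₂ : ℝ) ≤ (1 + F (θ / (2 - 2 * θ)) + ε) * predicted n y₁ y₂

/-- `|m - k| ≤ (log k) ^ W` and `gcd (m, q) ≤ (log k) ^ T` -/
def Near (W T q k m : ℕ) : Prop :=
  |(m : ℝ) - k| ≤ Real.log k ^ W ∧ (Nat.gcd m q : ℝ) ≤ Real.log k ^ T

/-- `A n` is a set of at most `n ^ K + K` residues modulo `q n ≥ 1`, for one `K`. -/
structure Classes (q : ℕ → ℕ) (A : ℕ → Finset ℕ) : Prop where
  pos : ∀ n, 1 ≤ q n
  lt : ∀ n, ∀ a ∈ A n, a < q n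
  card : ∃ K : ℕ, ∀ n, #(A n) ≤ n ^ K + K

/-- The conclusion for the integers `k = q n * y n + a`, `a ∈ A n`: for all `W`, `T` and `ε > 0`, for all but finitely
many `n`, all `m` near such a `k` satisfy `Bounds θ ε W m`. -/
def Conclusion (θ : ℝ) (q : ℕ → ℕ) (A : ℕ → Finset ℕ) (y : ℕ → ℕ) : Prop :=
  ∀ (W T : ℕ) (ε : ℝ), 0 < ε → ∀ᶠ n in atTop, ∀ a ∈ A n, ∀ m : ℕ,
    Near W T (q n) (q n * y n + a) m → Bounds θ ε W m

lemma tot_prime (m : ℕ) (h1 : 1 ≤ m) (h : m.totient + 1 = m) : m.Prime := by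
  have h2 : 2 ≤ m := by
    rcases Nat.lt_or_ge m 2 with h3 | h3
    · have : m = 1 := by omega
      rw [this, Nat.totient_one] at h
      omega
    · exact h3
  exact (Nat.totient_eq_iff_prime (by omega)).1 (by omega)

lemma sol_iff (n : ℕ) (x : ℤ) (hx1 : -(n : ℤ) < x) (hx2 : x ≤ n) :
    Solution n x ↔ ((n : ℤ) + x).toNat.Prime ∧ (2 * n - ((n : ℤ) + x).toNat).Prime := by
  obtain ⟨u, hu⟩ : ∃ u : ℕ, (u : ℤ) = (n : ℤ) + x := ⟨((n : ℤ) + x).toNat, by omega⟩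
  obtain ⟨v, hv⟩ : ∃ v : ℕ, (v : ℤ) = (n : ℤ) - x := ⟨((n : ℤ) - x).toNat, by omega⟩
  have hu' : ((n : ℤ) + x).toNat = u := by omega
  have hv' : ((n : ℤ) - x).toNat = v := by omega
  have huv : 2 * n - u = v := by omega
  unfold Solution
  rw [hu', hv', huv, ← hu, ← hv]
  constructor
  · rintro ⟨h1, h2, h3, h4⟩
    exact ⟨tot_prime u (by omega) (by omega), tot_prime v (by omega) (by omega)⟩
  · rintro ⟨h1, h2⟩
    have a1 := h1.one_lt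
    have a2 := h2.one_lt
    refine ⟨by omega, by omega, ?_, ?_⟩
    · rw [Nat.totient_prime h2]
      omega
    · rw [Nat.totient_prime h1]
      omega

lemma cnt_eq (n : ℕ) (y₁ y₂ : ℤ) (u₁ u₂ : ℕ) (h1 : -(n : ℤ) ≤ y₁) (h3 : y₂ ≤ n) (hu1 : (u₁ : ℤ) = (n : ℤ) + y₁)
    (hu2 : (u₂ : ℤ) = (n : ℤ) + y₂) : Pool.Agent.W93.PG.cnt (2 * n) u₁ u₂ = count n y₁ y₂ := by
  classical
  unfold Pool.Agent.W93.PG.cnt count
  refine card_bij (fun (p : ℕ) _ => (p : ℤ) - n) ?_ ?_ ?_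
  · intro p hp
    rw [mem_filter, mem_Ioc] at hp
    obtain ⟨⟨a1, a2⟩, a3, a4⟩ := hp
    rw [mem_filter, mem_Ioc]
    refine ⟨⟨by omega, by omega⟩, ?_⟩
    rw [sol_iff n _ (by omega) (by omega)]
    have : ((n : ℤ) + ((p : ℤ) - n)).toNat = p := by omega
    rw [this]
    exact ⟨a3, a4⟩
  · intro p _ p' _ hpp
    omega
  · intro x hx
    rw [mem_filter, mem_Ioc] at hx
    obtain ⟨⟨b1, b2⟩, b3⟩ := hx
    rw [sol_iff n _ (by omega) (by omega)] at b3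
    refine ⟨((n : ℤ) + x).toNat, ?_, by omega⟩
    rw [mem_filter, mem_Ioc]
    exact ⟨⟨by omega, by omega⟩, b3⟩

lemma window {n W : ℕ} {y₁ y₂ : ℤ} {u₁ u₂ : ℕ} (hu1 : (u₁ : ℤ) = (n : ℤ) + y₁) (hu2 : (u₂ : ℤ) = (n : ℤ) + y₂)
    (h4 : (2 * n : ℝ) / Real.log (2 * n) ^ W ≤ (y₂ : ℝ) - y₁) :
    ((2 * n : ℕ) : ℝ) / Real.log ((2 * n : ℕ) : ℝ) ^ W ≤ (u₂ : ℝ) - u₁ ∧ (u₂ : ℝ) - u₁ = (y₂ : ℝ) - y₁ := by
  have hu1r : (u₁ : ℝ) = n + y₁ := by exact_mod_cast hu1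
  have hu2r : (u₂ : ℝ) = n + y₂ := by exact_mod_cast hu2
  have e2 : (u₂ : ℝ) - u₁ = (y₂ : ℝ) - y₁ := by rw [hu1r, hu2r]; ring
  refine ⟨?_, e2⟩
  rw [e2]
  push_cast
  exact h4

lemma predicted_nn {n : ℕ} (hn : 2 ≤ n) {y₁ y₂ : ℤ} (h2 : y₁ < y₂) : 0 ≤ predicted n y₁ y₂ := by
  have h5 := Pool.Agent.R460.GS.one_le_sing (2 * n)
  unfold predicted
  have h7 : (0 : ℝ) ≤ (y₂ : ℝ) - y₁ := by
    have : (y₁ : ℝ) < y₂ := by exact_mod_cast h2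
    linarith
  positivity

lemma bounds_of {θ ε : ℝ} {W n : ℕ}
    (h : 3 ≤ 2 * n → WinT W (1 - FU (θ / (2 - 2 * θ)) ^ 2 - ε) (1 + FU (θ / (2 - 2 * θ)) + ε) (2 * n)) :
    Bounds θ ε W n := by
  intro hn y₁ y₂ h1 h2 h3 h4
  obtain ⟨u₁, hu1⟩ : ∃ u : ℕ, (u : ℤ) = (n : ℤ) + y₁ := ⟨((n : ℤ) + y₁).toNat, by omega⟩
  obtain ⟨u₂, hu2⟩ : ∃ u : ℕ, (u : ℤ) = (n : ℤ) + y₂ := ⟨((n : ℤ) + y₂).toNat, by omega⟩
  obtain ⟨h5, e2⟩ := window hu1 hu2 h4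
  have h6 := h (by omega) u₁ u₂ (by omega) (by omega) h5
  rw [e2, cnt_eq n y₁ y₂ u₁ u₂ h1 h3 hu1 hu2] at h6
  push_cast at h6
  exact h6

theorem half_T {θ : ℝ} (hθ0 : 2 / 3 ≤ θ) (hθ1 : θ ≤ 5 / 6) (ε : ℝ) (hε : 0 < ε) (W : ℕ) :
    Pool.Agent.N860.GL.ClassBound θ (fun n => 3 ≤ 2 * n →
      WinT W (1 - FU (θ / (2 - 2 * θ)) ^ 2 - ε) (1 + FU (θ / (2 - 2 * θ)) + ε) (2 * n)) := by
  classical
  obtain ⟨lo, hlo⟩ : ∃ lo, lo = 1 - FU (θ / (2 - 2 * θ)) ^ 2 - ε := ⟨_, rfl⟩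
  obtain ⟨hi, hhi⟩ : ∃ hi, hi = 1 + FU (θ / (2 - 2 * θ)) + ε := ⟨_, rfl⟩
  have hgt := Pool.Agent.T2h83.GT.gt_F ε hε hθ0 hθ1
  rw [← hlo, ← hhi] at hgt ⊢
  obtain ⟨Q1, hQ1⟩ : ∃ Q1 : ℕ → Prop, Q1 = fun m => 3 ≤ m → WinT W lo hi m := ⟨_, rfl⟩
  have hcb : Pool.Agent.N860.GL.ClassBound θ (fun n => Q1 (2 * n)) := by
    refine Pool.Agent.N860.GL.classBound_half (Q := Q1) fun ρ hρ A T => ?_
    obtain ⟨Q2, hQ2⟩ : ∃ Q2 : ℕ → Prop, Q2 = fun m => 3 ≤ m → WinT (max A W) lo hi m := ⟨_, rfl⟩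
    obtain ⟨N₀, hN₀⟩ := hgt (θ - ρ) (by linarith) (max A W) T
    rw [← hQ2] at hN₀
    obtain ⟨N₁, hN₁⟩ := Pool.Agent.N860.GL.log_large 1
    refine ⟨N₀ + N₁, fun N hN q hq hqN a ha => ?_⟩
    have hlog : 1 ≤ Real.log N := hN₁ N (by omega)
    have hN0 : (0 : ℝ) ≤ N := Nat.cast_nonneg _
    have hq0 : (0 : ℝ) < q := by exact_mod_cast hq
    refine le_trans ?_ ((hN₀ N (by omega) q hq hqN a ha).trans ?_)
    · have : (Pool.Agent.Y883.T4.badc Q1 N q a).card ≤ (Pool.Agent.Y883.T4.badc Q2 N q a).card := by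
        apply card_le_card
        intro n hn
        rw [Pool.Agent.N860.GL.mem_badc] at hn ⊢
        refine ⟨hn.1, hn.2.1, hn.2.2.1, fun hw => hn.2.2.2 ?_⟩
        rw [hQ2] at hw
        rw [hQ1]
        intro h4
        have hw' : 3 ≤ n → WinT (max A W) lo hi n := hw
        exact Pool.Agent.T2h83.GT.WinT_mono (le_max_right _ _) le_rfl le_rfl h4 (hw' h4)
      exact_mod_cast this
    · have : Real.log N ^ A ≤ Real.log N ^ (max A W) := pow_le_pow_right₀ hlog (le_max_left _ _)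
      gcongr
  rw [hQ1] at hcb
  exact hcb

lemma input {θ : ℝ} (hθ0 : 2 / 3 ≤ θ) (hθ1 : θ ≤ 5 / 6) : Pool.Agent.T2h83.GL.Input θ (Bounds θ) where
  form ε hε W := (half_T hθ0 hθ1 ε hε W).mono fun _ _ h => bounds_of h
  mono ε ε' hεε W n h hn y₁ y₂ h1 h2 h3 h4 := by
    obtain ⟨h5, h6⟩ := h hn y₁ y₂ h1 h2 h3 h4
    have h7 := predicted_nn hn h2
    exact ⟨(mul_le_mul_of_nonneg_right (by linarith) h7).trans h5,
      h6.trans (mul_le_mul_of_nonneg_right (by linarith) h7)⟩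

lemma classes_of {q : ℕ → ℕ} {A : ℕ → Finset ℕ} (h : Classes q A) : Pool.Agent.N860.GL.Classes q A :=
  ⟨h.pos, h.lt, h.card⟩

/-- Let `2 / 3 ≤ θ ≤ 5 / 6` and `κ > (1 - θ) / θ`; then `0 ≤ F (θ / (2 - 2 θ)) ≤ 0.965`.
(1) **Random leading parts.** `Y n` are random nonnegative integers on one probability space, however
dependent, with `P (Y n = y) ≤ C / (y + 1)` for all `y`; `∑ P (Y n < exp (n ^ δ)) < ∞` and
`∑ P (Y n < (q n) ^ κ) < ∞`.  (2) **Metric form.** `h n` are real functions with `|h n'| ≥ c |h n|`,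
`h n ≥ exp (n ^ δ)` and `h n ≥ (q n) ^ κ` on `[I, J]` for large `n`; `y n = ⌊h n x⌋` for almost every `x`.
(3) **Digits.** `y n = ⌊x b ^ (t n)⌋`, `q n = b ^ (s n)`, `n ^ δ ≤ t n`, `κ s n ≤ t n`, almost every `x > 0`. -/
theorem result (θ : ℝ) (hθ0 : 2 / 3 ≤ θ) (hθ1 : θ ≤ 5 / 6) (κ : ℝ) (hκ : (1 - θ) / θ < κ) :
    (0 ≤ F (θ / (2 - 2 * θ)) ∧ F (θ / (2 - 2 * θ)) ≤ 0.965) ∧
    (∀ (q : ℕ → ℕ) (A : ℕ → Finset ℕ), Classes q A →
      ∀ (Ω : Type) [MeasurableSpace Ω] (μ : Measure Ω) [IsProbabilityMeasure μ] (Y : ℕ → Ω → ℕ) (C δ : ℝ), 0 < δ →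
        (∀ n (y : ℕ), μ {ω | Y n ω = y} ≤ ENNReal.ofReal (C / ((y : ℝ) + 1))) →
        ∑' n : ℕ, μ {ω | (Y n ω : ℝ) < Real.exp ((n : ℝ) ^ δ)} ≠ ∞ →
        ∑' n : ℕ, μ {ω | (Y n ω : ℝ) < (q n : ℝ) ^ κ} ≠ ∞ →
        ∀ᵐ ω ∂μ, Conclusion θ q A (fun n => Y n ω)) ∧
    (∀ (q : ℕ → ℕ) (A : ℕ → Finset ℕ), Classes q A →
      ∀ (I J c δ : ℝ) (h : ℕ → ℝ → ℝ), 0 < δ → 0 < c →
        (∀ᶠ n : ℕ in atTop, ∀ x ∈ Set.Icc I J, DifferentiableAt ℝ (h n) x ∧ c * |h n x| ≤ |deriv (h n) x| ∧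
          Real.exp ((n : ℝ) ^ δ) ≤ h n x ∧ (q n : ℝ) ^ κ ≤ h n x) →
        ∀ᵐ x : ℝ, x ∈ Set.Icc I J → Conclusion θ q A (fun n => ⌊h n x⌋₊)) ∧
    (∀ (b : ℕ), 2 ≤ b → ∀ (t s : ℕ → ℕ) (δ : ℝ), 0 < δ →
      (∀ᶠ n : ℕ in atTop, (n : ℝ) ^ δ ≤ t n ∧ κ * s n ≤ t n) →
      ∀ A : ℕ → Finset ℕ, Classes (fun n => b ^ s n) A →
        ∀ᵐ x : ℝ, 0 < x → Conclusion θ (fun n => b ^ s n) A (fun n => ⌊x * b ^ t n⌋₊)) := by
  have hθp : 0 < θ := by linarith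
  have hκ' : 1 - θ < κ * θ := by rwa [div_lt_iff₀ hθp] at hκ
  obtain ⟨h3, h4⟩ := Pool.Agent.T2h83.GT.FU_bd hθ0 hθ1
  have h5 : F (θ / (2 - 2 * θ)) ≤ 965 / 1000 := h4
  exact ⟨⟨h3, by linarith⟩,
    fun _ _ hA _ _ μ _ Y _ _ hδ hY hs hq =>
      Pool.Agent.T2h83.GL.random_concl (input hθ0 hθ1) hθp (by linarith) hκ' hδ (classes_of hA) μ Y hY hs hq,
    fun _ _ hA _ _ _ _ h hδ hc hh =>
      Pool.Agent.T2h83.GL.metric_concl (input hθ0 hθ1) hθp (by linarith) hκ' hδ hc (classes_of hA) h hh,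
    fun _ hb _ _ _ hδ ht _ hA =>
      Pool.Agent.T2h83.GL.digits_concl (input hθ0 hθ1) hθp (by linarith) hb hκ' hδ ht (classes_of hA)⟩

end Pool.Agent.T2h83.GL.GenericLeadingSixth
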